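import Pool.Agent.Helper69.WS.St

set_option autoImplicit false

namespace Pool.Agent.Helper44.WS

open Pool.Agent.Helper69.WS Filter Topology

/-- admissible pairs -/
def Ad (t n : ℤ) : Prop := n = 1 ∧ 3 ≤ t ∨ n = -1 ∧ 1 ≤ t

lemma Ad.sign {t n : ℤ} (h : Ad t n) : n = 1 ∨ n = -1 := by
  rcases h with h | h
  · exact Or.inl h.1
  · exact Or.inr h.1

lemma Ad.pos {t n : ℤ} (h : Ad t n) : 1 ≤ t := by
  rcases h with h | h <;> omega

lemma exists_root {t n : ℤ} (h : Ad t n) : ∃ y : ℝ, 1 < y ∧ y ^ 2 - t * y + n = 0 := by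
  have hD : (4 : ℝ) < (t : ℝ) ^ 2 - 4 * n := by
    rcases h with ⟨rfl, ht⟩ | ⟨rfl, ht⟩
    · have : (3 : ℝ) ≤ t := by exact_mod_cast ht
      push_cast; nlinarith
    · have : (1 : ℝ) ≤ t := by exact_mod_cast ht
      push_cast; nlinarith
  have ht1 : (1 : ℝ) ≤ t := by exact_mod_cast h.pos
  have hs : (2 : ℝ) < Real.sqrt ((t : ℝ) ^ 2 - 4 * n) := by
    rw [Real.lt_sqrt (by norm_num)]
    norm_num; linarith
  have hsq := Real.sq_sqrt (show (0 : ℝ) ≤ (t : ℝ) ^ 2 - 4 * n by linarith)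
  refine ⟨(t + Real.sqrt ((t : ℝ) ^ 2 - 4 * n)) / 2, by linarith, ?_⟩
  nlinarith [hsq]

lemma root_unique {t n : ℤ} (hn : n = 1 ∨ n = -1) {y y' : ℝ} (h1 : 1 < y) (h1' : 1 < y')
    (h : y ^ 2 - t * y + n = 0) (h' : y' ^ 2 - t * y' + n = 0) : y = y' := by
  by_contra hne
  have h2 : (y - y') * (y + y' - t) = 0 := by linear_combination h - h'
  have h3 : y + y' - t = 0 := by
    rcases mul_eq_zero.mp h2 with h3 | h3
    · exact absurd (by linarith) hne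
    · exact h3
  have h4 : y * y' = n := by
    have : y' = t - y := by linarith
    rw [this]; linarith
  have h5 : 1 < y * y' := by nlinarith
  rcases hn with rfl | rfl
  · push_cast at h4; linarith
  · push_cast at h4; linarith

lemma root_ge {t n : ℤ} (h : Ad t n) {y : ℝ} (h1 : 1 < y) (hy : y ^ 2 - t * y + n = 0) :
    3 / 2 ≤ y := by
  by_contra hlt
  push Not at hlt
  rcases h with ⟨rfl, ht⟩ | ⟨rfl, ht⟩
  · have : (3 : ℝ) ≤ t := by exact_mod_cast ht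
    push_cast at hy
    nlinarith
  · have : (1 : ℝ) ≤ t := by exact_mod_cast ht
    push_cast at hy
    nlinarith

lemma t_lt {t n : ℤ} (h : Ad t n) {y : ℝ} (h1 : 1 < y) (hy : y ^ 2 - t * y + n = 0) :
    (t : ℝ) < y + 1 := by
  by_contra hlt
  push Not at hlt
  rcases h with ⟨rfl, ht⟩ | ⟨rfl, ht⟩
  · push_cast at hy
    nlinarith
  · push_cast at hy
    nlinarith

lemma lt_t {t n : ℤ} (h : Ad t n) {y : ℝ} (h1 : 1 < y) (hy : y ^ 2 - t * y + n = 0) :
    y < t + 1 := by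
  by_contra hlt
  push Not at hlt
  rcases h with ⟨rfl, ht⟩ | ⟨rfl, ht⟩
  · push_cast at hy
    nlinarith
  · push_cast at hy
    nlinarith

lemma pair_unique {t n t' n' : ℤ} (hn : n = 1 ∨ n = -1) (hn' : n' = 1 ∨ n' = -1) {y : ℝ}
    (h1 : 1 < y) (h : y ^ 2 - t * y + n = 0) (h' : y ^ 2 - t' * y + n' = 0) :
    t = t' ∧ n = n' := by
  have h2 : ((t : ℝ) - t') * y = n - n' := by linear_combination h' - h
  by_cases hnn : n = n'
  · refine ⟨?_, hnn⟩
    subst hnn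
    have h3 : ((t : ℝ) - t') * y = 0 := by rw [h2]; ring
    rcases mul_eq_zero.mp h3 with h4 | h4
    · have : (t : ℝ) = t' := by linarith
      exact_mod_cast this
    · linarith
  · exfalso
    have key : ∀ (a b : ℤ), (a : ℝ) * y = 2 → (y ^ 2 - b * y + 1 = 0 ∨ y ^ 2 - b * y - 1 = 0) →
        False := by
      intro a b ha hb
      have ha0 : (0 : ℝ) < a := by
        by_contra hneg
        push Not at hneg
        nlinarith
      have ha1 : (1 : ℤ) ≤ a := by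
        have : (0 : ℤ) < a := by exact_mod_cast ha0
        omega
      have ha2 : a < 2 := by
        by_contra hge
        push Not at hge
        have : (2 : ℝ) ≤ a := by exact_mod_cast hge
        nlinarith
      have ha3 : a = 1 := by omega
      subst ha3
      have hy2 : y = 2 := by push_cast at ha; linarith
      subst hy2
      rcases hb with hb | hb
      · have : (4 : ℤ) - b * 2 + 1 = 0 := by
          have h5 : ((4 : ℝ) - b * 2 + 1 = 0) := by linarith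
          exact_mod_cast h5
        omega
      · have : (4 : ℤ) - b * 2 - 1 = 0 := by
          have h5 : ((4 : ℝ) - b * 2 - 1 = 0) := by linarith
          exact_mod_cast h5
        omega
    rcases hn with rfl | rfl <;> rcases hn' with rfl | rfl
    · exact hnn rfl
    · refine key (t - t') t ?_ (Or.inl ?_)
      · push_cast; push_cast at h2; linarith
      · push_cast at h; linarith
    · refine key (t' - t) t ?_ (Or.inr ?_)
      · push_cast; push_cast at h2; linarith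
      · push_cast at h; linarith
    · exact hnn rfl

def GG (x : ℝ) (P : ℤ → ℤ → Prop) : Set (ℤ × ℤ) :=
  {p | Ad p.1 p.2 ∧ P p.1 p.2 ∧ ∃ (d : ℕ) (e : ℝ), 1 < d ∧ Squarefree d ∧ IsFund d e ∧ e ≤ x ∧
    e ^ 2 - p.1 * e + p.2 = 0}

def HH (x : ℝ) (P : ℤ → ℤ → Prop) : Set (ℤ × ℤ) :=
  {p | (p.2 = 1 ∨ p.2 = -1) ∧ 1 ≤ p.1 ∧ p.1 ≤ (⌊x⌋₊ : ℤ) ∧ P p.1 p.2}

def WW (z : ℝ) : Set (ℤ × ℤ) :=
  {p | Ad p.1 p.2 ∧ ∃ (d : ℕ) (e : ℝ) (j : ℕ), 1 < d ∧ Squarefree d ∧ IsFund d e ∧ 2 ≤ j ∧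
    e ^ j ≤ z ∧ (e ^ j) ^ 2 - p.1 * e ^ j + p.2 = 0}

lemma card_D (hALG : StALG) (x : ℝ) (P : ℤ → ℤ → Prop) :
    {d | d ∈ Fam x ∧ ∃ t n : ℤ, UTN d t n ∧ P t n}.ncard = (GG x P).ncard := by
  obtain ⟨hA, hB, hC⟩ := hALG
  have key : ∀ d : ℕ, (1 < d ∧ Squarefree d ∧ ∃ e, IsFund d e) → ∃ p : ℤ × ℤ, Ad p.1 p.2 ∧
      (∀ e, IsFund d e → e ^ 2 - p.1 * e + p.2 = 0 ∧
        ∀ t' n' : ℤ, e ^ 2 - t' * e + n' = 0 → t' = p.1 ∧ n' = p.2) := by
    rintro d ⟨hd, hs, e, he⟩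
    obtain ⟨t, n, had, heq, hun⟩ := hA d e hd hs he.1
    refine ⟨(t, n), had, ?_⟩
    intro e' he'
    have : e' = e := he'.unique he
    subst this
    exact ⟨heq, hun⟩
  choose! f hf using key
  have himg : f '' {d | d ∈ Fam x ∧ ∃ t n : ℤ, UTN d t n ∧ P t n} = GG x P := by
    ext p
    constructor
    · rintro ⟨d, ⟨⟨hd, hs, e, hex, he⟩, t, n, ⟨hn, e', he', hee⟩, hP⟩, rfl⟩
      have h1 := hf d ⟨hd, hs, e, he⟩
      have h2 : e' = e := he'.unique he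
      subst h2
      obtain ⟨h3, h4⟩ := (h1.2 e' he').2 t n hee
      subst h3; subst h4
      exact ⟨h1.1, hP, d, e', hd, hs, he', hex, hee⟩
    · rintro ⟨had, hP, d, e, hd, hs, he, hex, hee⟩
      refine ⟨d, ⟨⟨hd, hs, e, hex, he⟩, p.1, p.2, ⟨had.sign, e, he, hee⟩, hP⟩, ?_⟩
      have h1 := hf d ⟨hd, hs, e, he⟩
      obtain ⟨h3, h4⟩ := (h1.2 e he).2 p.1 p.2 hee
      exact (Prod.ext h3 h4).symm
  rw [← himg, Set.ncard_image_of_injOn]
  rintro d ⟨⟨hd, hs, e, hex, he⟩, -⟩ d' ⟨⟨hd', hs', e', hex', he'⟩, -⟩ hff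
  have h1 := hf d ⟨hd, hs, e, he⟩
  have h1' := hf d' ⟨hd', hs', e', he'⟩
  have h2 := (h1.2 e he).1
  have h2' := (h1'.2 e' he').1
  rw [← hff] at h2'
  have h3 : e = e' := root_unique h1.1.sign he.1.1 he'.1.1 h2 h2'
  subst h3
  exact hC d d' e hd hs hd' hs' he he'

lemma cnt_fin (X : ℕ) (P : ℤ → Prop) : {t : ℤ | 1 ≤ t ∧ t ≤ X ∧ P t}.Finite :=
  (Set.finite_Icc (1 : ℤ) X).subset (fun _ ht => ⟨ht.1, ht.2.1⟩)

lemma HH_eq (x : ℝ) (P : ℤ → ℤ → Prop) :
    HH x P = (fun t : ℤ => (t, (1 : ℤ))) '' {t : ℤ | 1 ≤ t ∧ t ≤ (⌊x⌋₊ : ℤ) ∧ P t 1} ∪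
      (fun t : ℤ => (t, (-1 : ℤ))) '' {t : ℤ | 1 ≤ t ∧ t ≤ (⌊x⌋₊ : ℤ) ∧ P t (-1)} := by
  ext ⟨t, n⟩
  constructor
  · rintro ⟨hn, h1, h2, h3⟩
    simp only at hn h1 h2 h3
    rcases hn with rfl | rfl
    · exact Or.inl ⟨t, ⟨h1, h2, h3⟩, rfl⟩
    · exact Or.inr ⟨t, ⟨h1, h2, h3⟩, rfl⟩
  · rintro (⟨s, ⟨h1, h2, h3⟩, h4⟩ | ⟨s, ⟨h1, h2, h3⟩, h4⟩)
    · simp only [Prod.mk.injEq] at h4
      obtain ⟨rfl, rfl⟩ := h4
      exact ⟨Or.inl rfl, h1, h2, h3⟩
    · simp only [Prod.mk.injEq] at h4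
      obtain ⟨rfl, rfl⟩ := h4
      exact ⟨Or.inr rfl, h1, h2, h3⟩

lemma card_H (x : ℝ) (P : ℤ → ℤ → Prop) :
    (HH x P).Finite ∧
      (HH x P).ncard = cnt ⌊x⌋₊ (fun t => P t 1) + cnt ⌊x⌋₊ (fun t => P t (-1)) := by
  have f1 := cnt_fin ⌊x⌋₊ (fun t => P t 1)
  have f2 := cnt_fin ⌊x⌋₊ (fun t => P t (-1))
  rw [HH_eq]
  refine ⟨(f1.image _).union (f2.image _), ?_⟩
  rw [Set.ncard_union_eq ?_ (f1.image _) (f2.image _)]
  · rw [Set.ncard_image_of_injective _ (fun a b h => (Prod.mk.inj h).1),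
      Set.ncard_image_of_injective _ (fun a b h => (Prod.mk.inj h).1)]
    rfl
  · rw [Set.disjoint_left]
    rintro p ⟨s, -, rfl⟩ ⟨s', -, h⟩
    have := (Prod.mk.inj h).2
    omega

lemma G_diff (x : ℝ) (hx : 1 ≤ x) (P : ℤ → ℤ → Prop) :
    GG x P \ HH x P ⊆ {((⌊x⌋₊ : ℤ) + 1, (1 : ℤ))} := by
  rintro ⟨t, n⟩ ⟨⟨had, hP, d, e, hd, hs, he, hex, hee⟩, hH⟩
  simp only at had hP hee
  have hx0 : (0 : ℝ) ≤ x := by linarith
  have ht1 := had.pos
  have hnot : ¬ t ≤ (⌊x⌋₊ : ℤ) := fun h => hH ⟨had.sign, ht1, h, hP⟩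
  have htl := t_lt had he.1.1 hee
  have hfl : ∀ s : ℤ, 0 ≤ s → (s : ℝ) ≤ x → s ≤ (⌊x⌋₊ : ℤ) := by
    intro s hs0 hsx
    lift s to ℕ using hs0
    have : s ≤ ⌊x⌋₊ := Nat.le_floor (by exact_mod_cast hsx)
    exact_mod_cast this
  rcases had with ⟨rfl, h3⟩ | ⟨rfl, h3⟩
  · have h4 : t - 1 ≤ (⌊x⌋₊ : ℤ) := by
      apply hfl _ (by omega)
      push_cast; linarith
    have h5 : t = (⌊x⌋₊ : ℤ) + 1 := by omega
    rw [h5]; rfl
  · exfalso
    apply hnot
    apply hfl _ (by omega)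
    have h1 := he.1.1
    have h6 : (t : ℝ) < e := by
      by_contra hge
      push Not at hge
      push_cast at hee
      nlinarith
    linarith

lemma H_diff (hALG : StALG) (x : ℝ) (hx : 1 ≤ x) (P : ℤ → ℤ → Prop) :
    HH x P \ GG x P ⊆
      ({((1 : ℤ), (1 : ℤ)), ((2 : ℤ), (1 : ℤ)), ((⌊x⌋₊ : ℤ), (-1 : ℤ))} : Set (ℤ × ℤ)) ∪
        WW (x + 1) := by
  obtain ⟨hA, hB, hC⟩ := hALG
  rintro ⟨t, n⟩ ⟨⟨hn, h1, h2, hP⟩, hG⟩
  simp only at hn h1 h2 hP
  have hx0 : (0 : ℝ) ≤ x := by linarith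
  have htx : (t : ℝ) ≤ x := by
    have h3 : ((⌊x⌋₊ : ℕ) : ℝ) ≤ x := Nat.floor_le hx0
    have h4 : (t : ℝ) ≤ ((⌊x⌋₊ : ℤ) : ℝ) := by exact_mod_cast h2
    have h5 : (((⌊x⌋₊ : ℕ) : ℤ) : ℝ) = ((⌊x⌋₊ : ℕ) : ℝ) := by push_cast; rfl
    linarith
  by_cases had : Ad t n
  · obtain ⟨y, hy1, hy⟩ := exists_root had
    obtain ⟨d, e, j, hd, hs, he, hj, hyj⟩ := hB t n y had hy1 hy
    have hyt := lt_t had hy1 hy
    rcases Nat.lt_or_ge j 2 with hj2 | hj2
    · have hj1 : j = 1 := by omega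
      subst hj1
      rw [pow_one] at hyj
      subst hyj
      left
      have hxy : ¬ y ≤ x := fun h => hG ⟨had, hP, d, y, hd, hs, he, h, hy⟩
      push Not at hxy
      rcases had with ⟨rfl, h3⟩ | ⟨rfl, h3⟩
      · exfalso
        push_cast at hy
        nlinarith
      · have h6 : ⌊x⌋₊ = t.toNat := by
          rw [Nat.floor_eq_iff hx0]
          have h7 : ((t.toNat : ℕ) : ℝ) = t := by
            have : ((t.toNat : ℕ) : ℤ) = t := Int.toNat_of_nonneg (by omega)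
            exact_mod_cast this
          rw [h7]
          exact ⟨htx, by linarith⟩
        have h8 : (⌊x⌋₊ : ℤ) = t := by rw [h6]; exact Int.toNat_of_nonneg (by omega)
        rw [h8]
        simp
    · right
      refine ⟨had, d, e, j, hd, hs, he, hj2, ?_, ?_⟩
      · rw [← hyj]; linarith
      · rw [← hyj]; exact hy
  · left
    rcases hn with rfl | rfl
    · have : ¬ 3 ≤ t := fun h => had (Or.inl ⟨rfl, h⟩)
      have h3 : t = 1 ∨ t = 2 := by omega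
      rcases h3 with rfl | rfl <;> simp
    · exact absurd (Or.inr ⟨rfl, h1⟩) had

/-- the finite set of parameters -/
noncomputable def QQ (N2 N3 J : ℕ) : Finset ((ℤ × ℤ) × ℕ) :=
  ((Finset.Icc (1 : ℤ) N2 ×ˢ ({1, -1} : Finset ℤ)) ×ˢ ({2} : Finset ℕ)) ∪
    ((Finset.Icc (1 : ℤ) N3 ×ˢ ({1, -1} : Finset ℤ)) ×ˢ Finset.Icc 1 J)

lemma QQ_card (N2 N3 J : ℕ) : (QQ N2 N3 J).card ≤ N2 * 2 + N3 * 2 * J := by
  unfold QQ
  refine (Finset.card_union_le _ _).trans ?_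
  rw [Finset.card_product, Finset.card_product, Finset.card_product, Finset.card_product]
  have h1 : (Finset.Icc (1 : ℤ) N2).card = N2 := by simp
  have h2 : (Finset.Icc (1 : ℤ) N3).card = N3 := by simp
  have h3 : ({1, -1} : Finset ℤ).card = 2 := by decide
  have h4 : (Finset.Icc 1 J).card = J := by simp
  rw [h1, h2, h3, h4]
  simp

lemma W_card (hALG : StALG) (z : ℝ) (hz : 2 ≤ z) :
    (WW z).Finite ∧ ((WW z).ncard : ℝ) ≤ 76 * Real.sqrt z := by
  obtain ⟨hA, hB, hC⟩ := hALG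
  have hz0 : (0 : ℝ) < z := by linarith
  set N2 : ℕ := ⌊Real.sqrt z⌋₊ + 1 with hN2
  set N3 : ℕ := ⌊z ^ ((1 : ℝ) / 3)⌋₊ + 1 with hN3
  set J : ℕ := ⌊3 * Real.log z⌋₊ with hJ
  let R : (ℤ × ℤ) × ℕ → ℤ × ℤ → Prop := fun q p => Ad p.1 p.2 ∧ ∃ e : ℝ, 1 < e ∧
    e ^ 2 - q.1.1 * e + q.1.2 = 0 ∧ (e ^ q.2) ^ 2 - p.1 * e ^ q.2 + p.2 = 0
  have hch : ∀ q : (ℤ × ℤ) × ℕ, ∃ p : ℤ × ℤ, (∃ p', R q p') → R q p := by
    intro q
    by_cases h : ∃ p', R q p'
    · obtain ⟨p', hp'⟩ := h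
      exact ⟨p', fun _ => hp'⟩
    · exact ⟨(0, 0), fun h' => absurd h' h⟩
  choose F hF using hch
  have hsub : WW z ⊆ F '' (QQ N2 N3 J : Set ((ℤ × ℤ) × ℕ)) := by
    rintro p ⟨had, d, e, j, hd, hs, he, hj, hej, hee⟩
    have he1 := he.1.1
    obtain ⟨t', n', had', heq', -⟩ := hA d e hd hs he.1
    have had'' : Ad t' n' := had'
    refine ⟨((t', n'), j), ?_, ?_⟩
    · have htl := t_lt had'' he1 heq'
      have htp := had''.pos
      have hge := root_ge had'' he1 heq'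
      have hfl : ∀ w : ℝ, e ≤ w → t' ≤ ((⌊w⌋₊ + 1 : ℕ) : ℤ) := by
        intro w hw
        have h5 : t' - 1 ≤ (⌊w⌋₊ : ℤ) := by
          have h6 : 0 ≤ t' - 1 := by omega
          obtain ⟨s, hs'⟩ := Int.eq_ofNat_of_zero_le h6
          rw [hs']
          have h7 : (s : ℝ) ≤ w := by
            have h8 : ((t' - 1 : ℤ) : ℝ) = (s : ℝ) := by rw [hs']; simp
            push_cast at h8
            linarith
          have : s ≤ ⌊w⌋₊ := Nat.le_floor h7
          exact_mod_cast this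
        push_cast
        omega
      have hn' : n' ∈ ({1, -1} : Finset ℤ) := by
        rcases had''.sign with h | h <;> simp [h]
      unfold QQ
      simp only [Finset.coe_union, Set.mem_union, Finset.mem_coe, Finset.mem_product,
        Finset.mem_Icc, Finset.mem_singleton]
      rcases Nat.lt_or_ge j 3 with hj3 | hj3
      · left
        have hj2 : j = 2 := by omega
        subst hj2
        refine ⟨⟨⟨htp, ?_⟩, hn'⟩, rfl⟩
        apply hfl
        exact Real.le_sqrt_of_sq_le hej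
      · right
        refine ⟨⟨⟨htp, ?_⟩, hn'⟩, by omega, ?_⟩
        · apply hfl
          have h9 : e ^ 3 ≤ z := (pow_le_pow_right₀ he1.le hj3).trans hej
          have h10 : e = (e ^ 3) ^ ((1 : ℝ) / 3) := by
            rw [← Real.rpow_natCast e 3, ← Real.rpow_mul (by linarith)]
            norm_num
          rw [h10]
          exact Real.rpow_le_rpow (by positivity) h9 (by norm_num)
        · apply Nat.le_floor
          have h11 : ((3 : ℝ) / 2) ^ j ≤ z :=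
            (pow_le_pow_left₀ (by norm_num) hge j).trans hej
          have h12 : (j : ℝ) * Real.log (3 / 2) ≤ Real.log z := by
            rw [← Real.log_pow]
            exact Real.log_le_log (by positivity) h11
          have h13 : (1 : ℝ) / 3 ≤ Real.log (3 / 2) := by
            have := Real.one_sub_inv_le_log_of_pos (show (0 : ℝ) < 3 / 2 by norm_num)
            norm_num at this
            linarith
          have h14 : (j : ℝ) * (1 / 3) ≤ j * Real.log (3 / 2) :=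
            mul_le_mul_of_nonneg_left h13 (Nat.cast_nonneg j)
          linarith
    · have hR : R ((t', n'), j) p := ⟨had, e, he1, heq', hee⟩
      have hR' := hF ((t', n'), j) ⟨p, hR⟩
      obtain ⟨hadF, e', he1', heq'', hee'⟩ := hR'
      simp only at heq'' hee'
      have h15 : e' = e := root_unique had''.sign he1' he1 heq'' heq'
      subst h15
      have hpow : 1 < e' ^ j := one_lt_pow₀ he1' (by omega)
      have h16 := pair_unique hadF.sign had.sign hpow hee' hee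
      exact Prod.ext h16.1 h16.2
  have hfin : (F '' (QQ N2 N3 J : Set ((ℤ × ℤ) × ℕ))).Finite :=
    (Finset.finite_toSet _).image _
  refine ⟨hfin.subset hsub, ?_⟩
  have hc1 : (WW z).ncard ≤ N2 * 2 + N3 * 2 * J := by
    refine (Set.ncard_le_ncard hsub hfin).trans ?_
    refine (Set.ncard_image_le (Finset.finite_toSet _)).trans ?_
    rw [Set.ncard_coe_finset]
    exact QQ_card N2 N3 J
  have hc2 : ((WW z).ncard : ℝ) ≤ N2 * 2 + N3 * 2 * J := by exact_mod_cast hc1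
  have hlog0 : 0 ≤ Real.log z := Real.log_nonneg (by linarith)
  have hsq1 : 1 ≤ Real.sqrt z := by
    rw [Real.one_le_sqrt]; linarith
  have hN2' : (N2 : ℝ) ≤ Real.sqrt z + 1 := by
    rw [hN2]; push_cast
    have := Nat.floor_le (Real.sqrt_nonneg z)
    linarith
  have hc3 : 1 ≤ z ^ ((1 : ℝ) / 3) := Real.one_le_rpow (by linarith) (by norm_num)
  have hN3' : (N3 : ℝ) ≤ 2 * z ^ ((1 : ℝ) / 3) := by
    rw [hN3]; push_cast
    have := Nat.floor_le (show 0 ≤ z ^ ((1 : ℝ) / 3) by linarith)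
    linarith
  have hJ' : (J : ℝ) ≤ 18 * z ^ ((1 : ℝ) / 6) := by
    have h1 := Nat.floor_le (show 0 ≤ 3 * Real.log z by linarith)
    have h2 := Real.log_le_rpow_div hz0.le (show (0 : ℝ) < 1 / 6 by norm_num)
    rw [hJ]
    have h3 : z ^ ((1 : ℝ) / 6) / (1 / 6) = 6 * z ^ ((1 : ℝ) / 6) := by ring
    rw [h3] at h2
    linarith
  have hprod : z ^ ((1 : ℝ) / 3) * z ^ ((1 : ℝ) / 6) = Real.sqrt z := by
    rw [← Real.rpow_add hz0, Real.sqrt_eq_rpow]
    norm_num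
  have hmul : (N3 : ℝ) * J ≤ 36 * Real.sqrt z := by
    have h1 : (N3 : ℝ) * J ≤ (2 * z ^ ((1 : ℝ) / 3)) * (18 * z ^ ((1 : ℝ) / 6)) :=
      mul_le_mul hN3' hJ' (Nat.cast_nonneg _) (by positivity)
    calc (N3 : ℝ) * J ≤ (2 * z ^ ((1 : ℝ) / 3)) * (18 * z ^ ((1 : ℝ) / 6)) := h1
      _ = 36 * (z ^ ((1 : ℝ) / 3) * z ^ ((1 : ℝ) / 6)) := by ring
      _ = 36 * Real.sqrt z := by rw [hprod]
  have : (N2 : ℝ) * 2 + N3 * 2 * J ≤ 76 * Real.sqrt z := by nlinarith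
  linarith

theorem hTRF (hALG : StALG) : StTRF := by
  refine ⟨200, by norm_num, ?_⟩
  intro x P hx
  have hD := card_D hALG x P
  obtain ⟨hHf, hHc⟩ := card_H x P
  have hG1 := G_diff x hx P
  have hH1 := H_diff hALG x hx P
  obtain ⟨hWf, hWc⟩ := W_card hALG (x + 1) (by linarith)
  have hsing : ({((⌊x⌋₊ : ℤ) + 1, (1 : ℤ))} : Set (ℤ × ℤ)).Finite := Set.finite_singleton _
  have hGd : (GG x P \ HH x P).Finite := hsing.subset hG1
  have hGdc : (GG x P \ HH x P).ncard ≤ 1 := by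
    refine (Set.ncard_le_ncard hG1 hsing).trans ?_
    rw [Set.ncard_singleton]
  have hGf : (GG x P).Finite :=
    (hHf.union hGd).subset (fun p hp => by
      by_cases h : p ∈ HH x P
      · exact Or.inl h
      · exact Or.inr ⟨hp, h⟩)
  have hTf : ({((1 : ℤ), (1 : ℤ)), ((2 : ℤ), (1 : ℤ)), ((⌊x⌋₊ : ℤ), (-1 : ℤ))} :
      Set (ℤ × ℤ)).Finite := by
    exact (Set.finite_singleton _).insert _ |>.insert _
  have hTc : ({((1 : ℤ), (1 : ℤ)), ((2 : ℤ), (1 : ℤ)), ((⌊x⌋₊ : ℤ), (-1 : ℤ))} :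
      Set (ℤ × ℤ)).ncard ≤ 3 := by
    refine (Set.ncard_insert_le _ _).trans ?_
    refine Nat.succ_le_succ ((Set.ncard_insert_le _ _).trans ?_)
    rw [Set.ncard_singleton]
  have hHdc : (HH x P \ GG x P).ncard ≤ 3 + (WW (x + 1)).ncard := by
    refine (Set.ncard_le_ncard hH1 (hTf.union hWf)).trans ?_
    refine (Set.ncard_union_le _ _).trans ?_
    omega
  have h1 : (GG x P).ncard ≤ (HH x P).ncard + 1 := by
    have hs : GG x P ⊆ HH x P ∪ (GG x P \ HH x P) := fun p hp => by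
      by_cases h : p ∈ HH x P
      · exact Or.inl h
      · exact Or.inr ⟨hp, h⟩
    refine (Set.ncard_le_ncard hs (hHf.union hGd)).trans ?_
    refine (Set.ncard_union_le _ _).trans ?_
    omega
  have h2 : (HH x P).ncard ≤ (GG x P).ncard + (3 + (WW (x + 1)).ncard) := by
    have hs : HH x P ⊆ GG x P ∪ (HH x P \ GG x P) := fun p hp => by
      by_cases h : p ∈ GG x P
      · exact Or.inl h
      · exact Or.inr ⟨hp, h⟩
    refine (Set.ncard_le_ncard hs (hGf.union (hHf.subset Set.diff_subset))).trans ?_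
    refine (Set.ncard_union_le _ _).trans ?_
    omega
  have hsx : 1 ≤ Real.sqrt x := by
    rw [Real.one_le_sqrt]; exact hx
  have hsx1 : Real.sqrt (x + 1) ≤ 2 * Real.sqrt x := by
    rw [Real.sqrt_le_left (by positivity)]
    have := Real.sq_sqrt (show (0 : ℝ) ≤ x by linarith)
    nlinarith
  have h1' : ((GG x P).ncard : ℝ) ≤ (HH x P).ncard + 1 := by exact_mod_cast h1
  have h2' : ((HH x P).ncard : ℝ) ≤ (GG x P).ncard + (3 + (WW (x + 1)).ncard) := by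
    exact_mod_cast h2
  have h3' : ((cnt ⌊x⌋₊ (fun t => P t 1) : ℝ) + cnt ⌊x⌋₊ (fun t => P t (-1))) =
      ((HH x P).ncard : ℝ) := by
    rw [hHc]; push_cast; ring
  rw [hD, h3', abs_le]
  constructor <;> nlinarith

end Pool.Agent.Helper44.WS
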